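import Pool.Agent.N608.OEC.Final

/-!
Online partial edge colouring with `Δ` colours, edge arrivals, oblivious adversary: every edge of
every simple graph of maximum degree at most `Δ` (no girth condition) is coloured with probability
at least `1 - 1793 * Δ ^ (-1/9)`.

The algorithm: every vertex `x` and colour `c` carry a weight `S x c`, initially `1`.  When the edge
`u v` arrives it gets colour `c` with probability `P c = ((1 - ε) / Δ) * S u c * S v c`, unless
one of the new weights `S u c / (1 - P c)`, `S v c / (1 - P c)` would exceed `2 / ε` or these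
probabilities add up to more than `1`, in which case `P c = 0`; then `S u c` and `S v c` become `0`
if `c` was chosen and are divided by `1 - P c` otherwise.
-/

open Filter Topology
open scoped ENNReal

namespace Pool.Agent.Results.MP_8fc531_lc.OnlineDeltaColouring

open Pool.Agent.N608.OEC

theorem result :
    (∀ Δ : ℕ, 1 ≤ Δ → ∀ L : ℕ,
      ENNReal.ofReal (1 - 1793 * (Δ : ℝ) ^ (-(1 / 9) : ℝ)) ≤ pp Δ L ∧ pp Δ L ≤ 1) ∧
    Tendsto (fun Δ : ℕ => ⨆ (L : ℕ) (_ : 3 ≤ L), pp Δ L) atTop (𝓝 1) :=
  ⟨fun Δ hΔ L => ⟨pp_lower Δ hΔ L, pp_le_one Δ hΔ L⟩, tendsto_pp⟩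

end Pool.Agent.Results.MP_8fc531_lc.OnlineDeltaColouring
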